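import Pool.Agent.T6.H65.ZD.Prime

/-!
# Multiple zeta values with algebraic coefficients

A relation between the multiple zeta values of weight `m` with coefficients in a number field of degree
`δ` gives (by a norm) a motivic relation with rational coefficients in the weight `δ m`.
-/

set_option autoImplicit false
set_option linter.unusedSectionVars false

namespace Pool.Agent.T6.H65.ZD

open Module MvPolynomial

/-- the space spanned over the field `F` of complex numbers by the multiple zeta values of weight `n` -/
noncomputable def ZF (F : IntermediateField ℚ ℂ) (n : ℕ) : Submodule F ℂ :=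
  Submodule.span F ((fun w => (mzv w : ℂ)) '' {w | Admissible n w})

/-- The algebra of motivic multiple zeta values with the period map, as a polynomial ring: generators
`i : ι` of the weights `wt i` and with the periods `z i`, such that the space of the polynomials of
weight `n` has dimension `d n` and its image under the period map is the space of the multiple zeta
values of weight `n`. -/
structure MotivicPolynomials (ι : Type) where
  wt : ι → ℕ
  z : ι → ℝ
  finite : ∀ n, FiniteDimensional ℚ (weightedHomogeneousSubmodule ℚ wt n)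
  dim : ∀ n, finrank ℚ (weightedHomogeneousSubmodule ℚ wt n) = d n
  onto : ∀ n, (weightedHomogeneousSubmodule ℚ wt n).map
    (aeval z : MvPolynomial ι ℚ →ₐ[ℚ] ℝ).toLinearMap = Z n

/-- rank and nullity on a subspace -/
lemma rk {K V W : Type*} [Field K] [AddCommGroup V] [Module K V] [AddCommGroup W] [Module K W]
    (f : V →ₗ[K] W) (U : Submodule K V) [FiniteDimensional K U] :
    finrank K (U.map f) + finrank K (U ⊓ LinearMap.ker f : Submodule K V) = finrank K U := by
  have h1 := LinearMap.finrank_range_add_finrank_ker (f.domRestrict U)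
  rw [LinearMap.range_domRestrict] at h1
  have e : (LinearMap.ker (f.domRestrict U)).map U.subtype = U ⊓ LinearMap.ker f := by
    ext x
    simp only [Submodule.mem_map, LinearMap.mem_ker, Submodule.coe_subtype, Subtype.exists,
      LinearMap.domRestrict_apply]
    constructor
    · rintro ⟨a, ha, h4, rfl⟩
      exact ⟨ha, h4⟩
    · rintro ⟨ha, h4⟩
      exact ⟨x, ha, h4, rfl⟩
  rw [← e, ← (Submodule.equivMapOfInjective U.subtype (Submodule.injective_subtype _)
    (LinearMap.ker (f.domRestrict U))).finrank_eq]
  exact h1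

namespace MotivicPolynomials

variable {ι : Type} (M : MotivicPolynomials ι)

/-- the motivic algebra -/
noncomputable def toMotivic : MotivicAlgebra (MvPolynomial ι ℚ) where
  H := weightedHomogeneousSubmodule ℚ M.wt
  graded := weightedGradedAlgebra ℚ M.wt
  finite := M.finite
  dim := M.dim
  per := aeval M.z
  onto := M.onto

/-- the exponents of the monomials of weight `n` -/
abbrev I (n : ℕ) : Type := {s : ι →₀ ℕ // Finsupp.weight M.wt s = n}

/-- the monomials -/
noncomputable def u (n : ℕ) (s : M.I n) : MvPolynomial ι ℚ := monomial s.1 1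

/-- the values of the monomials -/
noncomputable def vR (n : ℕ) (s : M.I n) : ℝ := aeval M.z (M.u n s)

/-- the values of the monomials -/
noncomputable def v (n : ℕ) (s : M.I n) : ℂ := (M.vR n s : ℂ)

lemma span_u (n : ℕ) : Submodule.span ℚ (Set.range (M.u n)) =
    weightedHomogeneousSubmodule ℚ M.wt n := by
  rw [weightedHomogeneousSubmodule_eq_finsupp_supported, AddMonoidAlgebra.supported_eq_span_single]
  congr 1
  ext x
  simp only [Set.mem_range, Set.mem_image, Subtype.exists, u, Set.mem_ofPred_eq]
  constructor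
  · rintro ⟨s, hs, rfl⟩
    exact ⟨s, hs, rfl⟩
  · rintro ⟨s, hs, rfl⟩
    exact ⟨s, hs, rfl⟩

lemma li_u (n : ℕ) : LinearIndependent ℚ (M.u n) := by
  have h := (basisMonomials ι ℚ).linearIndependent.comp (fun s : M.I n => s.1)
    Subtype.val_injective
  rwa [coe_basisMonomials] at h

instance finiteI (n : ℕ) : Finite (M.I n) := by
  have h := M.finite n
  rw [← M.span_u n] at h
  exact Module.Finite.finite_basis (Basis.span (M.li_u n))

lemma card_I (n : ℕ) : Nat.card (M.I n) = d n := by
  have h := finrank_eq_nat_card_basis (Basis.span (M.li_u n))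
  rw [M.span_u n, M.dim n] at h
  exact h.symm

lemma Z_eq (n : ℕ) : Z n = Submodule.span ℚ (Set.range (M.vR n)) := by
  rw [← M.onto n, ← M.span_u n, Submodule.map_span, ← Set.range_comp]
  rfl

lemma ZF_eq (F : IntermediateField ℚ ℂ) (n : ℕ) :
    ZF F n = Submodule.span F (Set.range (M.v n)) := by
  let c : ℝ →ₗ[ℚ] ℂ := (IsScalarTower.toAlgHom ℚ ℝ ℂ).toLinearMap
  have h1 : Submodule.span ℚ ((fun w => (mzv w : ℂ)) '' {w | Admissible n w}) = (Z n).map c := by
    rw [Z, Submodule.map_span, Set.image_image]
    rfl
  have h2 : Submodule.span ℚ (Set.range (M.v n)) = (Z n).map c := by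
    rw [M.Z_eq n, Submodule.map_span, ← Set.range_comp]
    rfl
  rw [ZF, ← Submodule.span_span_of_tower ℚ F, h1, ← h2, Submodule.span_span_of_tower]

lemma finrank_iff (F : IntermediateField ℚ ℂ) (n : ℕ) :
    finrank F (ZF F n) = d n ↔ LinearIndependent F (M.v n) := by
  have := Fintype.ofFinite (M.I n)
  rw [linearIndependent_iff_card_eq_finrank_span, ← Nat.card_eq_fintype_card, M.card_I n, M.ZF_eq F n]
  exact eq_comm

lemma v_apply (n : ℕ) (s : M.I n) : M.v n s = s.1.prod fun i e => (M.z i : ℂ) ^ e := by
  rw [v, vR, u, aeval_monomial, map_one, one_mul, Finsupp.prod, Finsupp.prod, Complex.ofReal_prod]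
  simp

/-- the norm -/
theorem descend (F : IntermediateField ℚ ℂ) [FiniteDimensional ℚ F] (m : ℕ)
    (h : ¬ LinearIndependent F (M.v m)) :
    ∃ D ∈ M.toMotivic.K (finrank ℚ F * m), D ≠ 0 := by
  classical
  have := Fintype.ofFinite (M.I m)
  rw [Fintype.not_linearIndependent_iff] at h
  obtain ⟨c, hc, s0, hs0⟩ := h
  set b := Module.finBasis ℚ F with hb
  set B : M.I m → Matrix (Fin (finrank ℚ F)) (Fin (finrank ℚ F)) ℚ :=
    fun s => Algebra.leftMulMatrix b (c s) with hB
  set P : Matrix (Fin (finrank ℚ F)) (Fin (finrank ℚ F)) (MvPolynomial ι ℚ) :=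
    fun i j => ∑ s, monomial s.1 (B s i j) with hP
  refine ⟨P.det, M.toMotivic.mem_K.2 ⟨?_, ?_⟩, ?_⟩
  · show P.det ∈ weightedHomogeneousSubmodule ℚ M.wt (finrank ℚ F * m)
    rw [Matrix.det_apply']
    refine Submodule.sum_mem _ fun σ _ => ?_
    have h1 : ∏ i, P (σ i) i ∈ weightedHomogeneousSubmodule ℚ M.wt (finrank ℚ F * m) := by
      have h2 := IsWeightedHomogeneous.prod (R := ℚ) (w := M.wt) Finset.univ (fun i => P (σ i) i)
        (fun _ => m) (fun i _ => by
          show (∑ s, monomial s.1 (B s (σ i) i)) ∈ weightedHomogeneousSubmodule ℚ M.wt m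
          exact Submodule.sum_mem _ fun s _ => isWeightedHomogeneous_monomial _ _ _ s.2)
      rw [Finset.sum_const, Finset.card_univ, Fintype.card_fin, smul_eq_mul] at h2
      exact h2
    rcases Int.units_eq_one_or (Equiv.Perm.sign σ) with h3 | h3
    · rw [h3]
      simpa using h1
    · rw [h3]
      simpa using h1
  · show aeval M.z P.det = 0
    apply (algebraMap ℝ ℂ).injective
    rw [map_zero, ← aeval_algebraMap_apply, AlgHom.map_det, ← Matrix.exists_vecMul_eq_zero_iff]
    refine ⟨fun i => (b i : ℂ), ?_, ?_⟩
    · intro h0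
      have hpos : 0 < finrank ℚ F := Module.finrank_pos
      have h1 : (b ⟨0, hpos⟩ : ℂ) = 0 := congrFun h0 ⟨0, hpos⟩
      exact b.ne_zero ⟨0, hpos⟩ (Subtype.ext h1)
    · ext j
      have e1 : ∀ i, aeval (fun i => algebraMap ℝ ℂ (M.z i)) (P i j) =
          ∑ s, (B s i j : ℂ) * M.v m s := by
        intro i
        rw [hP]
        simp only [map_sum, aeval_monomial]
        refine Finset.sum_congr rfl fun s _ => ?_
        rw [M.v_apply]
        rfl
      have e2 : ∀ s : M.I m, ∑ i, (b i : ℂ) * (B s i j : ℂ) = (c s : ℂ) * (b j : ℂ) := by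
        intro s
        have h2 := b.sum_repr (c s * b j)
        have h3 := congrArg (fun t : F => (t : ℂ)) h2
        simp only [IntermediateField.coe_sum, IntermediateField.coe_smul, IntermediateField.coe_mul] at h3
        rw [← h3]
        refine Finset.sum_congr rfl fun i _ => ?_
        rw [hB]
        simp only [Algebra.leftMulMatrix_eq_repr_mul]
        rw [Algebra.smul_def, mul_comm]
        rfl
      have e3 : (Matrix.vecMul (fun i => (b i : ℂ))
          ((aeval fun i => algebraMap ℝ ℂ (M.z i)).mapMatrix P)) j =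
          ∑ i, (b i : ℂ) * aeval (fun i => algebraMap ℝ ℂ (M.z i)) (P i j) := rfl
      show (Matrix.vecMul (fun i => (b i : ℂ))
          ((aeval fun i => algebraMap ℝ ℂ (M.z i)).mapMatrix P)) j = 0
      rw [e3]
      calc ∑ i, (b i : ℂ) * aeval (fun i => algebraMap ℝ ℂ (M.z i)) (P i j)
          = ∑ i, ∑ s, (b i : ℂ) * (B s i j : ℂ) * M.v m s := by
            refine Finset.sum_congr rfl fun i _ => ?_
            rw [e1, Finset.mul_sum]
            exact Finset.sum_congr rfl fun s _ => (mul_assoc _ _ _).symm
        _ = ∑ s, (∑ i, (b i : ℂ) * (B s i j : ℂ)) * M.v m s := by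
            rw [Finset.sum_comm]
            exact Finset.sum_congr rfl fun s _ => (Finset.sum_mul _ _ _).symm
        _ = (∑ s, (c s : ℂ) * M.v m s) * (b j : ℂ) := by
            rw [Finset.sum_mul]
            refine Finset.sum_congr rfl fun s _ => ?_
            rw [e2]; ring
        _ = 0 := by
            have h4 : ∑ s, (c s : ℂ) * M.v m s = 0 := hc
            rw [h4, zero_mul]
  · -- the polynomial with coefficients in `F`
    set p : MvPolynomial ι F := ∑ s : M.I m, monomial s.1 (c s) with hp
    have hp0 : p ≠ 0 := by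
      intro h0
      have h1 : coeff s0.1 p = c s0 := by
        rw [hp, coeff_sum, Finset.sum_eq_single s0]
        · rw [coeff_monomial, if_pos rfl]
        · intro s _ hs
          rw [coeff_monomial, if_neg (fun h => hs (Subtype.ext h))]
        · intro h; exact absurd (Finset.mem_univ _) h
      rw [h0, coeff_zero] at h1
      exact hs0 h1.symm
    obtain ⟨q, hq⟩ : ∃ q : ι → ℚ, eval (fun i => algebraMap ℚ F (q i)) p ≠ 0 := by
      by_contra hcon
      push Not at hcon
      apply hp0
      refine funext_set (fun _ => Set.range (algebraMap ℚ F)) (fun _ =>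
        Set.infinite_range_of_injective (algebraMap ℚ F).injective) fun x hx => ?_
      have h1 : ∀ i, ∃ r, algebraMap ℚ F r = x i := fun i => hx i (Set.mem_univ i)
      choose q hq using h1
      have h2 : x = fun i => algebraMap ℚ F (q i) := funext fun i => (hq i).symm
      rw [h2, hcon q, map_zero]
    intro hdet
    have h1 : eval q P.det = 0 := by rw [hdet, map_zero]
    rw [RingHom.map_det] at h1
    have h2 : (eval q).mapMatrix P =
        Algebra.leftMulMatrix b (eval (fun i => algebraMap ℚ F (q i)) p) := by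
      have h3 : eval (fun i => algebraMap ℚ F (q i)) p =
          ∑ s : M.I m, (s.1.prod fun i e => q i ^ e) • c s := by
        rw [hp, map_sum]
        refine Finset.sum_congr rfl fun s _ => ?_
        rw [eval_monomial, Algebra.smul_def, mul_comm, Finsupp.prod, Finsupp.prod, map_prod]
        simp only [map_pow]
      rw [h3, map_sum]
      ext i j
      rw [Matrix.sum_apply]
      show eval q (P i j) = _
      rw [hP]
      simp only [map_sum, eval_monomial]
      refine Finset.sum_congr rfl fun s _ => ?_
      rw [map_smul, Matrix.smul_apply, smul_eq_mul, mul_comm]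
    rw [h2] at h1
    have h4 : IsUnit (Algebra.leftMulMatrix b (eval (fun i => algebraMap ℚ F (q i)) p)) :=
      (IsUnit.mk0 _ hq).map (Algebra.leftMulMatrix b)
    rw [Matrix.isUnit_iff_isUnit_det, h1] at h4
    exact not_isUnit_zero h4

/-- from the rational numbers to the algebraic numbers -/
theorem li_of_algebraic (h : ∀ n, finrank ℚ (Z n) = d n) (F : IntermediateField ℚ ℂ)
    [Algebra.IsAlgebraic ℚ F] (m : ℕ) : LinearIndependent F (M.v m) := by
  have := Fintype.ofFinite (M.I m)
  rw [Fintype.linearIndependent_iff]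
  intro c hc s
  set E := IntermediateField.adjoin ℚ (Set.range fun s : M.I m => (c s : ℂ)) with hE
  have hfin : FiniteDimensional ℚ E := IntermediateField.finiteDimensional_adjoin (by
    rintro _ ⟨t, rfl⟩
    have h1 : IsAlgebraic ℚ (c t) := Algebra.IsAlgebraic.isAlgebraic _
    exact (h1.isIntegral).map (IsScalarTower.toAlgHom ℚ F ℂ))
  have hli : LinearIndependent E (M.v m) := by
    by_contra hcon
    obtain ⟨D, hD, hD0⟩ := M.descend E m hcon
    exact hD0 (M.toMotivic.K_eq_bot (h _) hD)
  have h2 := (Fintype.linearIndependent_iff.1 hli)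
    (fun t => ⟨c t, IntermediateField.subset_adjoin _ _ ⟨t, rfl⟩⟩) hc s
  exact Subtype.ext (congrArg (fun t : E => (t : ℂ)) h2)

include M in
lemma finrank_le (F : IntermediateField ℚ ℂ) (n : ℕ) :
    finrank F (ZF F n) ≤ finrank ℚ (Z n) := by
  have hfd : FiniteDimensional ℚ (Z n) := by
    rw [M.Z_eq n]
    exact FiniteDimensional.span_of_finite ℚ (Set.finite_range _)
  set b := Module.finBasis ℚ (Z n) with hb
  let c : ℝ →ₗ[ℚ] ℂ := (IsScalarTower.toAlgHom ℚ ℝ ℂ).toLinearMap
  have h1 : Submodule.span ℚ ((fun w => (mzv w : ℂ)) '' {w | Admissible n w}) = (Z n).map c := by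
    rw [Z, Submodule.map_span, Set.image_image]
    rfl
  have h3 : Submodule.span ℚ (Set.range fun i => (b i : ℝ)) = Z n := by
    have h4 := congrArg (Submodule.map (Z n).subtype) b.span_eq
    rw [Submodule.map_span, Submodule.map_top, Submodule.range_subtype, ← Set.range_comp] at h4
    exact h4
  have h2 : Submodule.span ℚ (Set.range fun i => ((b i : ℝ) : ℂ)) = (Z n).map c := by
    have h4 := congrArg (Submodule.map c) h3
    rw [Submodule.map_span, ← Set.range_comp] at h4
    exact h4
  have h5 : ZF F n = Submodule.span F (Set.range fun i => ((b i : ℝ) : ℂ)) := by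
    rw [ZF, ← Submodule.span_span_of_tower ℚ F, h1, ← h2, Submodule.span_span_of_tower]
  rw [h5]
  have h6 := finrank_range_le_card (R := F) (b := fun i => ((b i : ℝ) : ℂ))
  rw [Fintype.card_fin] at h6
  exact h6

include M in
/-- the defect over a number field of degree `δ` in the weight `m` propagates over `ℚ` from the weight
`δ m` on -/
theorem propagate (F : IntermediateField ℚ ℂ) [FiniteDimensional ℚ F] (m : ℕ)
    (h : finrank F (ZF F m) ≠ d m) (j : ℕ) :
    finrank ℚ (Z (finrank ℚ F * m + j)) + d j ≤ d (finrank ℚ F * m + j) := by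
  rw [Ne, M.finrank_iff] at h
  obtain ⟨D, hD, hD0⟩ := M.descend F m h
  have h1 : (M.toMotivic.H j).map (LinearMap.mulLeft ℚ D) ≤
      M.toMotivic.K (finrank ℚ F * m + j) := by
    rintro _ ⟨x, hx, rfl⟩
    refine ⟨M.toMotivic.mul_mem hD.1 hx, ?_⟩
    show M.toMotivic.per (D * x) = 0
    rw [map_mul, M.toMotivic.K_per hD, zero_mul]
  have h2 := Submodule.finrank_mono h1
  rw [MotivicAlgebra.finrank_mul hD0, M.toMotivic.dim] at h2
  have h3 := M.toMotivic.rank (finrank ℚ F * m + j)
  omega

/-! ### relations over a field of complex numbers -/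

section

variable (F : IntermediateField ℚ ℂ)

/-- the polynomials of weight `n` over `F` -/
noncomputable def HF (n : ℕ) : Submodule F (MvPolynomial ι F) := weightedHomogeneousSubmodule F M.wt n

/-- the evaluation over `F` -/
noncomputable def perF : MvPolynomial ι F →ₐ[F] ℂ := aeval fun i => (M.z i : ℂ)

/-- the monomials -/
noncomputable def uF (n : ℕ) (s : M.I n) : MvPolynomial ι F := monomial s.1 1

lemma span_uF (n : ℕ) : Submodule.span F (Set.range (M.uF F n)) = M.HF F n := by
  rw [HF, weightedHomogeneousSubmodule_eq_finsupp_supported, AddMonoidAlgebra.supported_eq_span_single]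
  congr 1
  ext x
  simp only [Set.mem_range, Set.mem_image, Subtype.exists, uF, Set.mem_ofPred_eq]
  constructor
  · rintro ⟨s, hs, rfl⟩
    exact ⟨s, hs, rfl⟩
  · rintro ⟨s, hs, rfl⟩
    exact ⟨s, hs, rfl⟩

lemma li_uF (n : ℕ) : LinearIndependent F (M.uF F n) := by
  have h := (basisMonomials ι F).linearIndependent.comp (fun s : M.I n => s.1)
    Subtype.val_injective
  rwa [coe_basisMonomials] at h

instance finHF (n : ℕ) : FiniteDimensional F (M.HF F n) := by
  rw [← M.span_uF F n]
  exact FiniteDimensional.span_of_finite F (Set.finite_range _)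

lemma dimF (n : ℕ) : finrank F (M.HF F n) = d n := by
  have h := finrank_eq_nat_card_basis (Basis.span (M.li_uF F n))
  rw [M.span_uF F n, M.card_I n] at h
  exact h

lemma perF_uF (n : ℕ) (s : M.I n) : M.perF F (M.uF F n s) = M.v n s := by
  rw [M.v_apply, perF, uF, aeval_monomial, map_one, one_mul]

lemma ontoF (n : ℕ) : (M.HF F n).map (M.perF F).toLinearMap = ZF F n := by
  rw [← M.span_uF F n, Submodule.map_span, ← Set.range_comp, M.ZF_eq F n]
  congr 2
  ext s
  exact M.perF_uF F n s

/-- the relations of weight `n` over `F` -/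
noncomputable def KF (n : ℕ) : Submodule F (MvPolynomial ι F) :=
  M.HF F n ⊓ LinearMap.ker (M.perF F).toLinearMap

lemma rankF (n : ℕ) : finrank F (ZF F n) + finrank F (M.KF F n) = d n := by
  have h1 := rk (K := F) (V := MvPolynomial ι F) (W := ℂ) (M.perF F).toLinearMap (M.HF F n)
  rw [M.dimF F n, M.ontoF] at h1
  exact h1

include M in
/-- a defect over `F` propagates -/
theorem propagateF (m : ℕ) (h : finrank F (ZF F m) ≠ d m) (j : ℕ) :
    finrank F (ZF F (m + j)) + d j ≤ d (m + j) := by
  have h1 := M.rankF F m
  have h2 : M.KF F m ≠ ⊥ := by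
    intro h0
    rw [h0, finrank_bot, add_zero] at h1
    exact h h1
  obtain ⟨x, hx, hx0⟩ := (Submodule.ne_bot_iff _).1 h2
  have hx1 : M.perF F x = 0 := hx.2
  have h3 : (M.HF F j).map (LinearMap.mulLeft F x) ≤ M.KF F (m + j) := by
    rintro _ ⟨y, hy, rfl⟩
    refine ⟨IsWeightedHomogeneous.mul hx.1 hy, ?_⟩
    show M.perF F (x * y) = 0
    rw [map_mul, hx1, zero_mul]
  have hinj : Function.Injective (LinearMap.mulLeft F x) := fun a b h => mul_left_cancel₀ hx0 h
  have hfin : FiniteDimensional F (M.KF F (m + j)) :=
    Submodule.finiteDimensional_of_le (inf_le_left : M.KF F (m + j) ≤ M.HF F (m + j))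
  have h4 := Submodule.finrank_mono h3
  rw [← (Submodule.equivMapOfInjective _ hinj (M.HF F j)).finrank_eq, M.dimF] at h4
  have h5 := M.rankF F (m + j)
  omega

end

end MotivicPolynomials

end Pool.Agent.T6.H65.ZD
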