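import Mathlib

/-!
# The algebra of motivic multiple zeta values: prime relations

Definitions (multiple zeta values, the spaces `Z k`, Zagier's sequence `d`, `MotivicAlgebra`), and the
fact that a relation in the first weight in which Zagier's conjecture fails is a prime element of the
algebra of motivic multiple zeta values.
-/

set_option autoImplicit false

namespace Pool.Agent.T6.H65.ZD

open Module

/-- `trunc [s_1, ..., s_r] m` is the sum of `∏ n_i ^ (-s_i)` over `m > n_1 > ... > n_r ≥ 1` -/
noncomputable def trunc : List ℕ → ℕ → ℝ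
  | [], _ => 1
  | s :: l, m => ∑ j ∈ Finset.Ico 1 m, trunc l j / (j : ℝ) ^ s

/-- the multiple zeta value `ζ(s_1, ..., s_r)`, the sum of `∏ n_i ^ (-s_i)` over
`n_1 > ... > n_r ≥ 1` -/
noncomputable def mzv : List ℕ → ℝ
  | [] => 1
  | s :: l => ∑' m : ℕ, trunc l (m + 1) / ((m + 1 : ℕ) : ℝ) ^ s

/-- the admissible indices of weight `k` -/
def Admissible (k : ℕ) (w : List ℕ) : Prop :=
  (∀ s ∈ w, 1 ≤ s) ∧ (∀ s ∈ w.head?, 2 ≤ s) ∧ w.sum = k

/-- the space spanned by the multiple zeta values of weight `k` -/
noncomputable def Z (k : ℕ) : Submodule ℚ ℝ := Submodule.span ℚ (mzv '' {w | Admissible k w})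

/-- Zagier's sequence -/
def d : ℕ → ℕ
  | 0 => 1
  | 1 => 0
  | 2 => 1
  | n + 3 => d n + d (n + 1)

/-- The algebra of motivic multiple zeta values with the period map: a factorial domain over `ℚ` (it is
a polynomial ring), graded by the weight, with homogeneous parts `H n` of dimension `d n`, and a
homomorphism `per` to the real numbers which maps `H n` onto the space of the multiple zeta values of
weight `n`. -/
structure MotivicAlgebra (A : Type) [CommRing A] [IsDomain A] [UniqueFactorizationMonoid A]
    [Algebra ℚ A] where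
  H : ℕ → Submodule ℚ A
  graded : GradedAlgebra H
  finite : ∀ n, FiniteDimensional ℚ (H n)
  dim : ∀ n, finrank ℚ (H n) = d n
  per : A →ₐ[ℚ] ℝ
  onto : ∀ n, (H n).map per.toLinearMap = Z n

/-! ### Zagier's sequence -/

lemma d_rec (n : ℕ) : d (n + 3) = d n + d (n + 1) := rfl

lemma d_double : ∀ n : ℕ, d (n + 3) ≤ 2 * d (n + 2)
  | 0 => by decide
  | 1 => by decide
  | 2 => by decide
  | n + 3 => by
    have h1 := d_double n
    have h2 := d_double (n + 1)
    have e1 : d (n + 3 + 3) = d (n + 3) + d (n + 4) := rfl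
    have e2 : d (n + 3 + 2) = d (n + 2) + d (n + 3) := rfl
    have e3 : d (n + 4) = d (n + 1) + d (n + 2) := rfl
    have e4 : d (n + 1 + 2) = d (n + 3) := rfl
    have e5 : d (n + 1 + 3) = d (n + 4) := rfl
    rw [e4, e5] at h2
    rw [e1, e2]
    omega

lemma d_pow (n m : ℕ) : d (n + 2 + m) ≤ 2 ^ m * d (n + 2) := by
  induction m with
  | zero => simp
  | succ m ih =>
    have h := d_double (n + m)
    have e1 : n + m + 3 = n + 2 + (m + 1) := by ring
    have e2 : n + m + 2 = n + 2 + m := by ring
    rw [e1, e2] at h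
    calc d (n + 2 + (m + 1)) ≤ 2 * d (n + 2 + m) := h
      _ ≤ 2 * (2 ^ m * d (n + 2)) := Nat.mul_le_mul_left _ ih
      _ = 2 ^ (m + 1) * d (n + 2) := by ring

lemma d_pos : ∀ n : ℕ, 0 < d (n + 2)
  | 0 => by decide
  | 1 => by decide
  | 2 => by decide
  | n + 3 => by
    have h1 := d_pos n
    have e1 : d (n + 3 + 2) = d (n + 2) + d (n + 3) := rfl
    rw [e1]
    omega

lemma d_mono1 : ∀ n : ℕ, d (n + 1) ≤ d (n + 2)
  | 0 => by decide
  | 1 => by decide
  | 2 => by decide
  | n + 3 => by
    have h1 := d_mono1 n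
    have h2 := d_mono1 (n + 1)
    have e1 : d (n + 3 + 1) = d (n + 1) + d (n + 2) := rfl
    have e2 : d (n + 3 + 2) = d (n + 2) + d (n + 3) := rfl
    have e3 : d (n + 1 + 1) = d (n + 2) := rfl
    have e4 : d (n + 1 + 2) = d (n + 3) := rfl
    rw [e3, e4] at h2
    rw [e1, e2]
    omega

lemma d_mono (n j : ℕ) : d (n + 1) ≤ d (n + 1 + j) := by
  induction j with
  | zero => exact le_rfl
  | succ j ih =>
    refine ih.trans ?_
    have h := d_mono1 (n + j)
    have e1 : n + j + 1 = n + 1 + j := by ring
    have e2 : n + j + 2 = n + 1 + (j + 1) := by ring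
    rwa [e1, e2] at h

/-- `d (w + r) - d r` is not small -/
lemma d_gap {w : ℕ} (hw : 2 ≤ w) {r : ℕ} (hr : 3 ≤ r) : d (w + r) + 8 * d r ≤ 8 * d (w + r) := by
  obtain ⟨v, rfl⟩ := Nat.exists_eq_add_of_le hw
  obtain ⟨q, rfl⟩ := Nat.exists_eq_add_of_le hr
  -- r = q + 3
  have h1 : d (q + 5) = d (q + 2) + d (q + 3) := rfl
  have h2 : d (q + 5) ≤ 2 ^ 3 * d (q + 2) := by
    have := d_pow q 3
    simpa [add_assoc] using this
  have h3 : d (q + 5) ≤ d (q + 5 + v) := by
    have := d_mono (q + 4) v
    simpa [add_assoc] using this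
  have e1 : 2 + v + (3 + q) = q + 5 + v := by ring
  have e2 : 3 + q = q + 3 := by ring
  rw [e1, e2]
  omega

/-! ### graded domains -/

section

variable {A : Type} [CommRing A] [IsDomain A] [Algebra ℚ A] (H : ℕ → Submodule ℚ A) [GradedAlgebra H]

open DirectSum

/-- a homogeneous factor can be cancelled -/
lemma mem_of_mul {g c : A} {w r : ℕ} (hg : g ∈ H w) (hg0 : g ≠ 0) (h : g * c ∈ H (w + r)) :
    c ∈ H r := by
  classical
  have h0 : ∀ i, i ≠ r → (decompose H c i : A) = 0 := by
    intro i hi
    have h1 : (decompose H (g * c) (w + i) : A) = g * decompose H c i :=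
      DirectSum.coe_decompose_mul_add_of_left_mem H hg
    have h2 : (decompose H (g * c) (w + i) : A) = 0 := by
      have := DirectSum.decompose_of_mem_ne H h (j := w + i) (by omega)
      exact this
    rw [h2] at h1
    exact (mul_eq_zero.1 h1.symm).resolve_left hg0
  have h3 : c = decompose H c r := by
    conv_lhs => rw [← DirectSum.sum_support_decompose H c]
    by_cases hr : r ∈ (decompose H c).support
    · rw [Finset.sum_eq_single_of_mem r hr (fun i _ hi => h0 i hi)]
    · rw [Finset.sum_eq_zero]
      · have : decompose H c r = 0 := by simpa using hr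
        rw [this]; rfl
      · intro i hi
        refine h0 i ?_
        rintro rfl
        exact hr hi
  rw [h3]
  exact (decompose H c r).2

/-- the factors of a homogeneous element are homogeneous -/
lemma homogeneous_of_mul {a b : A} {n : ℕ} (h : a * b ∈ H n) (h0 : a * b ≠ 0) :
    ∃ i j, i + j = n ∧ a ∈ H i ∧ b ∈ H j := by
  classical
  have ha : a ≠ 0 := left_ne_zero_of_mul h0
  have hb : b ≠ 0 := right_ne_zero_of_mul h0
  have hsa : (decompose H a).support.Nonempty := by
    rw [Finset.nonempty_iff_ne_empty]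
    intro hs
    apply ha
    rw [← DirectSum.sum_support_decompose H a, hs, Finset.sum_empty]
  have hsb : (decompose H b).support.Nonempty := by
    rw [Finset.nonempty_iff_ne_empty]
    intro hs
    apply hb
    rw [← DirectSum.sum_support_decompose H b, hs, Finset.sum_empty]
  have key : ∀ i ∈ (decompose H a).support, ∀ j ∈ (decompose H b).support,
      (∀ i' ∈ (decompose H a).support, ∀ j' ∈ (decompose H b).support, i' + j' = i + j →
        i' = i ∧ j' = j) → i + j = n := by
    intro i hi j hj hu
    by_contra hn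
    have h1 : (decompose H (a * b) (i + j) : A) = 0 :=
      DirectSum.decompose_of_mem_ne H h (fun hh => hn hh.symm)
    rw [DirectSum.decompose_mul, DirectSum.coe_mul_apply] at h1
    rw [Finset.sum_eq_single_of_mem (i, j)] at h1
    · rcases mul_eq_zero.1 h1 with h2 | h2
      · exact (DFinsupp.mem_support_iff.1 hi) (Subtype.ext h2)
      · exact (DFinsupp.mem_support_iff.1 hj) (Subtype.ext h2)
    · simp only [Finset.mem_filter, Finset.mem_product]
      exact ⟨⟨hi, hj⟩, trivial⟩
    · rintro ⟨i', j'⟩ hm hne
      simp only [Finset.mem_filter, Finset.mem_product] at hm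
      obtain ⟨h3, h4⟩ := hu i' hm.1.1 j' hm.1.2 hm.2
      exact absurd (by rw [h3, h4]) hne
  set i0 := (decompose H a).support.min' hsa with hi0
  set i1 := (decompose H a).support.max' hsa with hi1
  set j0 := (decompose H b).support.min' hsb with hj0
  set j1 := (decompose H b).support.max' hsb with hj1
  have e1 : i0 + j0 = n := key i0 (Finset.min'_mem _ _) j0 (Finset.min'_mem _ _)
    (fun i' hi' j' hj' hh => by
      have h1 := Finset.min'_le _ i' hi'
      have h2 := Finset.min'_le _ j' hj'
      omega)
  have e2 : i1 + j1 = n := key i1 (Finset.max'_mem _ _) j1 (Finset.max'_mem _ _)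
    (fun i' hi' j' hj' hh => by
      have h1 := Finset.le_max' _ i' hi'
      have h2 := Finset.le_max' _ j' hj'
      omega)
  have e3 : i0 ≤ i1 := Finset.min'_le _ _ (Finset.max'_mem _ _)
  have e4 : j0 ≤ j1 := Finset.min'_le _ _ (Finset.max'_mem _ _)
  have e5 : i0 = i1 := by omega
  have e6 : j0 = j1 := by omega
  have ua : ∀ i ∈ (decompose H a).support, i = i0 := fun i hi => by
    have h1 := Finset.min'_le _ i hi
    have h2 := Finset.le_max' _ i hi
    omega
  have ub : ∀ j ∈ (decompose H b).support, j = j0 := fun i hi => by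
    have h1 := Finset.min'_le _ i hi
    have h2 := Finset.le_max' _ i hi
    omega
  refine ⟨i0, j0, e1, ?_, ?_⟩
  · rw [← DirectSum.sum_support_decompose H a]
    exact Submodule.sum_mem _ fun i hi => by
      have := (decompose H a i).2
      rw [ua i hi] at this ⊢
      exact this
  · rw [← DirectSum.sum_support_decompose H b]
    exact Submodule.sum_mem _ fun i hi => by
      have := (decompose H b i).2
      rw [ub i hi] at this ⊢
      exact this

end

end Pool.Agent.T6.H65.ZD
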