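import Pool.Agent.T6.H65.ZD.Core

/-!
# Prime relations between multiple zeta values, and the dimension count
-/

set_option autoImplicit false
set_option linter.unusedSectionVars false

namespace Pool.Agent.T6.H65.ZD

open Module

variable {A : Type} [CommRing A] [IsDomain A] [UniqueFactorizationMonoid A] [Algebra ℚ A]

namespace MotivicAlgebra

variable (M : MotivicAlgebra A)

instance : GradedAlgebra M.H := M.graded

instance (n : ℕ) : FiniteDimensional ℚ (M.H n) := M.finite n

/-- the motivic relations of weight `n` -/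
noncomputable def K (n : ℕ) : Submodule ℚ A := M.H n ⊓ LinearMap.ker M.per.toLinearMap

lemma mem_K {n : ℕ} {x : A} : x ∈ M.K n ↔ x ∈ M.H n ∧ M.per x = 0 := Iff.rfl

lemma K_le (n : ℕ) : M.K n ≤ M.H n := inf_le_left

lemma K_per {n : ℕ} {x : A} (h : x ∈ M.K n) : M.per x = 0 := h.2

instance (n : ℕ) : FiniteDimensional ℚ (M.K n) := Submodule.finiteDimensional_of_le (M.K_le n)

lemma mul_mem {m n : ℕ} {x y : A} (hx : x ∈ M.H m) (hy : y ∈ M.H n) : x * y ∈ M.H (m + n) :=
  SetLike.mul_mem_graded hx hy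

lemma rank (n : ℕ) : finrank ℚ (Z n) + finrank ℚ (M.K n) = d n := by
  have h1 := LinearMap.finrank_range_add_finrank_ker (M.per.toLinearMap.domRestrict (M.H n))
  rw [M.dim n] at h1
  have h2 : LinearMap.range (M.per.toLinearMap.domRestrict (M.H n)) = Z n := by
    rw [LinearMap.range_domRestrict, M.onto]
  rw [h2] at h1
  have h3 : finrank ℚ (LinearMap.ker (M.per.toLinearMap.domRestrict (M.H n))) =
      finrank ℚ (M.K n) := by
    have e : (LinearMap.ker (M.per.toLinearMap.domRestrict (M.H n))).map (M.H n).subtype =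
        M.K n := by
      ext x
      simp only [Submodule.mem_map, LinearMap.mem_ker, Submodule.coe_subtype, Subtype.exists,
        LinearMap.domRestrict_apply]
      constructor
      · rintro ⟨a, ha, h4, rfl⟩
        exact ⟨ha, h4⟩
      · rintro ⟨ha, h4⟩
        exact ⟨x, ha, h4, rfl⟩
    rw [← e]
    exact (Submodule.equivMapOfInjective (M.H n).subtype (Submodule.injective_subtype _)
      (LinearMap.ker (M.per.toLinearMap.domRestrict (M.H n)))).finrank_eq
  rw [h3] at h1
  exact h1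

lemma K_eq_bot {n : ℕ} (h : finrank ℚ (Z n) = d n) {x : A} (hx : x ∈ M.K n) : x = 0 := by
  have h1 := M.rank n
  have h2 : finrank ℚ (M.K n) = 0 := by omega
  have h3 : M.K n = ⊥ := Submodule.finrank_eq_zero.1 h2
  rw [h3] at hx
  exact hx

/-- dimension of the multiples -/
lemma finrank_mul {x : A} (hx : x ≠ 0) (U : Submodule ℚ A) :
    finrank ℚ (U.map (LinearMap.mulLeft ℚ x)) = finrank ℚ U := by
  have hinj : Function.Injective (LinearMap.mulLeft ℚ x) := fun a b h => mul_left_cancel₀ hx h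
  exact (Submodule.equivMapOfInjective _ hinj U).finrank_eq.symm

/-- a relation in the first weight in which there is one is a prime element -/
theorem prime_of_first {m : ℕ} (hm : ∀ j < m, finrank ℚ (Z j) = d j) {f : A} (hf : f ∈ M.K m)
    (hf0 : f ≠ 0) : Prime f := by
  rw [← UniqueFactorizationMonoid.irreducible_iff_prime]
  refine ⟨fun hu => ?_, fun a b hab => ?_⟩
  · have := hu.map M.per
    rw [M.K_per hf] at this
    exact not_isUnit_zero this
  · have hmem : a * b ∈ M.H m := hab ▸ hf.1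
    obtain ⟨i, j, hij, ha, hb⟩ := homogeneous_of_mul M.H hmem (hab ▸ hf0)
    have ha0 : a ≠ 0 := fun h => hf0 (by rw [hab, h, zero_mul])
    have hb0 : b ≠ 0 := fun h => hf0 (by rw [hab, h, mul_zero])
    have hper : M.per a * M.per b = 0 := by
      rw [← map_mul, ← hab]; exact M.K_per hf
    have unit0 : ∀ c ∈ M.H 0, c ≠ 0 → IsUnit c := by
      intro c hc hc0
      have h1 : finrank ℚ (M.H 0) = 1 := M.dim 0
      have one_mem : (1 : A) ∈ M.H 0 := SetLike.GradedOne.one_mem
      obtain ⟨v, hv0, hv⟩ := finrank_eq_one_iff'.1 h1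
      obtain ⟨q, hq⟩ := hv ⟨c, hc⟩
      obtain ⟨q', hq'⟩ := hv ⟨1, one_mem⟩
      have e1 : q • (v : A) = c := congrArg Subtype.val hq
      have e2 : q' • (v : A) = 1 := congrArg Subtype.val hq'
      have hq0 : q ≠ 0 := by
        rintro rfl
        rw [zero_smul] at e1
        exact hc0 e1.symm
      have hq'0 : q' ≠ 0 := by
        rintro rfl
        rw [zero_smul] at e2
        exact zero_ne_one e2
      refine IsUnit.of_mul_eq_one ((q' * q⁻¹) • (1 : A)) ?_
      rw [← e1, mul_smul_comm, mul_one, smul_smul, mul_assoc, inv_mul_cancel₀ hq0, mul_one, e2]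
    rcases mul_eq_zero.1 hper with h | h
    · right
      have hi : m ≤ i := by
        by_contra hlt
        exact ha0 (M.K_eq_bot (hm i (not_le.1 hlt)) ⟨ha, h⟩)
      have hj : j = 0 := by omega
      subst hj
      exact unit0 b hb hb0
    · left
      have hj : m ≤ j := by
        by_contra hlt
        exact hb0 (M.K_eq_bot (hm j (not_le.1 hlt)) ⟨hb, h⟩)
      have hi : i = 0 := by omega
      subst hi
      exact unit0 a ha ha0

/-- the dimension count -/
theorem count {m w r : ℕ} {f g : A} (hf : f ∈ M.K m) (hp : Prime f) (hg : g ∈ M.H w)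
    (hfg : ¬ f ∣ g) (U : Submodule ℚ A) (hU : U ≤ M.H (m + r)) (hUg : ∀ u ∈ U, M.per (g * u) = 0) :
    d (w + r) + finrank ℚ U ≤ finrank ℚ (M.K (m + w + r)) + d r := by
  have hf0 : f ≠ 0 := hp.ne_zero
  have hg0 : g ≠ 0 := fun h => hfg (h ▸ dvd_zero f)
  set P := (M.H (w + r)).map (LinearMap.mulLeft ℚ f) with hP
  set Q := U.map (LinearMap.mulLeft ℚ g) with hQ
  have hPK : P ≤ M.K (m + w + r) := by
    rintro _ ⟨x, hx, rfl⟩
    refine ⟨?_, ?_⟩
    · have := M.mul_mem hf.1 hx
      rw [← add_assoc] at this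
      exact this
    · show M.per (f * x) = 0
      rw [map_mul, M.K_per hf, zero_mul]
  have hQK : Q ≤ M.K (m + w + r) := by
    rintro _ ⟨x, hx, rfl⟩
    refine ⟨?_, hUg x hx⟩
    have := M.mul_mem hg (hU hx)
    have e : w + (m + r) = m + w + r := by ring
    rw [e] at this
    exact this
  have hfP : FiniteDimensional ℚ P := Submodule.finiteDimensional_of_le hPK
  have hfQ : FiniteDimensional ℚ Q := Submodule.finiteDimensional_of_le hQK
  have h1 := Submodule.finrank_sup_add_finrank_inf_eq P Q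
  have h2 : finrank ℚ P = d (w + r) := by rw [hP, finrank_mul hf0, M.dim]
  have h3 : finrank ℚ Q = finrank ℚ U := by rw [hQ, finrank_mul hg0]
  have h4 : finrank ℚ (P ⊔ Q : Submodule ℚ A) ≤ finrank ℚ (M.K (m + w + r)) :=
    Submodule.finrank_mono (sup_le hPK hQK)
  have h5 : P ⊓ Q ≤ (M.H r).map (LinearMap.mulLeft ℚ (g * f)) := by
    rintro z ⟨⟨x, hx, hxz⟩, ⟨y, hy, hyz⟩⟩
    have e1 : f * x = z := hxz
    have e2 : g * y = z := hyz
    have h6 : f ∣ g * y := ⟨x, by rw [e2, e1]⟩
    obtain ⟨c, hc⟩ := (hp.dvd_or_dvd h6).resolve_left hfg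
    refine ⟨c, ?_, ?_⟩
    · refine mem_of_mul M.H (g := f) (w := m) hf.1 hf0 ?_
      rw [← hc]
      exact hU hy
    · show g * f * c = z
      rw [← e2, hc]; ring
  have h7 : finrank ℚ (P ⊓ Q : Submodule ℚ A) ≤ d r := by
    have : FiniteDimensional ℚ ((M.H r).map (LinearMap.mulLeft ℚ (g * f))) := inferInstance
    refine (Submodule.finrank_mono h5).trans ?_
    rw [finrank_mul (mul_ne_zero hg0 hf0), M.dim]
  omega

/-- an element of period `≠ 0` in the weight `w ≥ 2` -/
lemma exists_lift {w : ℕ} {x : ℝ} (hx : x ∈ Z w) : ∃ g ∈ M.H w, M.per g = x := by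
  rw [← M.onto w] at hx
  obtain ⟨g, hg, h⟩ := hx
  exact ⟨g, hg, h⟩

lemma exists_mem_K {m : ℕ} (h : finrank ℚ (Z m) ≠ d m) : ∃ f ∈ M.K m, f ≠ 0 := by
  have h1 := M.rank m
  have h2 : M.K m ≠ ⊥ := by
    intro h0
    rw [h0, finrank_bot, add_zero] at h1
    exact h h1
  exact (Submodule.ne_bot_iff _).1 h2

include M in
/-- defects of the cokernels -/
theorem coker {m : ℕ} (hm : ∀ j < m, finrank ℚ (Z j) = d j) (hm' : finrank ℚ (Z m) ≠ d m)
    {w : ℕ} {x : ℝ} (hx : x ∈ Z w) (hx0 : x ≠ 0) (r : ℕ) :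
    finrank ℚ (Z (m + w + r)) + d (w + r) + d (m + r) ≤
      d (m + w + r) + finrank ℚ (Z (m + r)) + d r := by
  obtain ⟨f, hf, hf0⟩ := M.exists_mem_K hm'
  have hp := M.prime_of_first hm hf hf0
  obtain ⟨g, hg, hgx⟩ := M.exists_lift hx
  have hfg : ¬ f ∣ g := by
    rintro ⟨c, rfl⟩
    rw [map_mul, M.K_per hf, zero_mul] at hgx
    exact hx0 hgx.symm
  have h1 := M.count (r := r) hf hp hg hfg (M.K (m + r)) (M.K_le _)
    (fun u hu => by rw [map_mul, M.K_per hu, mul_zero])
  have h2 := M.rank (m + w + r)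
  have h3 := M.rank (m + r)
  omega

/-- second defects -/
theorem second {m : ℕ} (hm : ∀ j < m, finrank ℚ (Z j) = d j) {f : A} (hf : f ∈ M.K m)
    (hf0 : f ≠ 0) {j : ℕ} (hj : finrank ℚ (Z (m + j)) + d j ≠ d (m + j)) (r : ℕ) :
    finrank ℚ (Z (m + (m + j) + r)) + d (m + j + r) + d (m + r) ≤ d (m + (m + j) + r) + d r := by
  have hp := M.prime_of_first hm hf hf0
  -- a relation which is not a multiple of `f`
  obtain ⟨g, hg, hgf⟩ : ∃ g ∈ M.K (m + j), g ∉ (M.H j).map (LinearMap.mulLeft ℚ f) := by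
    by_contra hcon
    push Not at hcon
    have h1 : M.K (m + j) ≤ (M.H j).map (LinearMap.mulLeft ℚ f) := hcon
    have h2 : (M.H j).map (LinearMap.mulLeft ℚ f) ≤ M.K (m + j) := by
      rintro _ ⟨x, hx, rfl⟩
      exact ⟨M.mul_mem hf.1 hx, by
        show M.per (f * x) = 0
        rw [map_mul, M.K_per hf, zero_mul]⟩
    have h3 : finrank ℚ (M.K (m + j)) = d j := by
      rw [le_antisymm h1 h2, finrank_mul hf0, M.dim]
    have h4 := M.rank (m + j)
    omega
  have hfg : ¬ f ∣ g := by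
    rintro ⟨c, rfl⟩
    exact hgf ⟨c, mem_of_mul M.H hf.1 hf0 hg.1, rfl⟩
  have h1 := M.count (r := r) hf hp hg.1 hfg (M.H (m + r)) le_rfl
    (fun u _ => by rw [map_mul, M.K_per hg, zero_mul])
  have h2 := M.rank (m + (m + j) + r)
  rw [M.dim] at h1
  omega

end MotivicAlgebra

end Pool.Agent.T6.H65.ZD
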